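import Pool.Agent.Helper63.XP.StB

/-!
# Project XP, module RAX: isometries of L^p, p ≠ 2, preserve disjointness
-/

set_option autoImplicit false

namespace Pool.Agent.Helper62.XP

open Pool.Agent.Helper63.XP MeasureTheory
open scoped ENNReal
open Pool.Agent.Helper49.KX (MS LY)

private theorem sq_rax (a : ℂ) (q : ℝ) : ‖a‖ ^ q = (‖a‖ ^ 2) ^ (q / 2) := by
  rw [← Real.rpow_natCast, ← Real.rpow_mul (norm_nonneg a)]
  congr 1
  push_cast
  ring

private theorem par_rax (a b : ℂ) : ‖a + b‖ ^ 2 + ‖a - b‖ ^ 2 = 2 * (‖a‖ ^ 2 + ‖b‖ ^ 2) := by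
  have h := parallelogram_law_with_norm ℝ a b
  nlinarith

private theorem split_rax (x r : ℝ) (hx : 0 < x) : x ^ r = x * x ^ (r - 1) := by
  have h := Real.rpow_add hx 1 (r - 1)
  rw [Real.rpow_one] at h
  rw [← h]
  congr 1
  ring

private theorem sub_rax (A B r : ℝ) (hA : 0 < A) (hB : 0 < B) (hr : r < 1) : (A + B) ^ r < A ^ r + B ^ r := by
  rw [split_rax (A + B) r (by linarith), split_rax A r hA, split_rax B r hB]
  have h1 : (A + B) ^ (r - 1) < A ^ (r - 1) := Real.rpow_lt_rpow_of_neg hA (by linarith) (by linarith)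
  have h2 : (A + B) ^ (r - 1) < B ^ (r - 1) := Real.rpow_lt_rpow_of_neg hB (by linarith) (by linarith)
  have h3 := mul_lt_mul_of_pos_left h1 hA
  have h4 := mul_lt_mul_of_pos_left h2 hB
  linarith

private theorem sup_rax (A B r : ℝ) (hA : 0 < A) (hB : 0 < B) (hr : 1 < r) : A ^ r + B ^ r < (A + B) ^ r := by
  rw [split_rax (A + B) r (by linarith), split_rax A r hA, split_rax B r hB]
  have h1 : A ^ (r - 1) < (A + B) ^ (r - 1) := Real.rpow_lt_rpow hA.le (by linarith) (by linarith)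
  have h2 : B ^ (r - 1) < (A + B) ^ (r - 1) := Real.rpow_lt_rpow hB.le (by linarith) (by linarith)
  have h3 := mul_lt_mul_of_pos_left h1 hA
  have h4 := mul_lt_mul_of_pos_left h2 hB
  linarith

/-- `2|a|^q + 2|b|^q - |a+b|^q - |a-b|^q` -/
private noncomputable def dl (q : ℝ) (a b : ℂ) : ℝ :=
  2 * ‖a‖ ^ q + 2 * ‖b‖ ^ q - ‖a + b‖ ^ q - ‖a - b‖ ^ q

private theorem dl_zero (q : ℝ) (hq : 0 < q) (a b : ℂ) (h : a = 0 ∨ b = 0) : dl q a b = 0 := by
  rcases h with h | h <;> subst h <;> simp [dl, Real.zero_rpow hq.ne'] <;> ring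

private theorem dl_pos (q : ℝ) (hq : 0 < q) (hq2 : q < 2) (a b : ℂ) (ha : a ≠ 0) (hb : b ≠ 0) : 0 < dl q a b := by
  have hA : (0:ℝ) < ‖a‖ ^ 2 := by positivity
  have hB : (0:ℝ) < ‖b‖ ^ 2 := by positivity
  have hc := (Real.concaveOn_rpow (p := q / 2) (by linarith) (by linarith)).2
    (Set.mem_Ici.2 (sq_nonneg ‖a + b‖)) (Set.mem_Ici.2 (sq_nonneg ‖a - b‖))
    (show (0:ℝ) ≤ 1 / 2 by norm_num) (show (0:ℝ) ≤ 1 / 2 by norm_num) (by norm_num)
  have hs := sub_rax _ _ (q / 2) hA hB (by linarith)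
  have hp := par_rax a b
  simp only [smul_eq_mul] at hc
  rw [show 1 / 2 * ‖a + b‖ ^ 2 + 1 / 2 * ‖a - b‖ ^ 2 = ‖a‖ ^ 2 + ‖b‖ ^ 2 by linarith] at hc
  unfold dl
  rw [sq_rax a, sq_rax b, sq_rax (a + b), sq_rax (a - b)]
  linarith

private theorem dl_neg (q : ℝ) (hq2 : 2 < q) (a b : ℂ) (ha : a ≠ 0) (hb : b ≠ 0) : dl q a b < 0 := by
  have hA : (0:ℝ) < ‖a‖ ^ 2 := by positivity
  have hB : (0:ℝ) < ‖b‖ ^ 2 := by positivity
  have hc := (convexOn_rpow (p := q / 2) (by linarith)).2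
    (Set.mem_Ici.2 (sq_nonneg ‖a + b‖)) (Set.mem_Ici.2 (sq_nonneg ‖a - b‖))
    (show (0:ℝ) ≤ 1 / 2 by norm_num) (show (0:ℝ) ≤ 1 / 2 by norm_num) (by norm_num)
  have hs := sup_rax _ _ (q / 2) hA hB (by linarith)
  have hp := par_rax a b
  simp only [smul_eq_mul] at hc
  rw [show 1 / 2 * ‖a + b‖ ^ 2 + 1 / 2 * ‖a - b‖ ^ 2 = ‖a‖ ^ 2 + ‖b‖ ^ 2 by linarith] at hc
  unfold dl
  rw [sq_rax a, sq_rax b, sq_rax (a + b), sq_rax (a - b)]
  linarith

private theorem nrm_rax {Y : Type} [MeasurableSpace Y] (ν : Measure Y) (p : ℝ≥0∞) [Fact (1 ≤ p)] (hp : p ≠ ∞)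
    (F : Lp ℂ p ν) : ‖F‖ ^ p.toReal = ∫ y, ‖F y‖ ^ p.toReal ∂ν := by
  have h1 : (1 : ℝ≥0∞) ≤ p := Fact.out
  have hp0 : p ≠ 0 := by
    intro h
    rw [h] at h1
    exact absurd h1 (by norm_num)
  have hq : 0 < p.toReal := ENNReal.toReal_pos hp0 hp
  have h0 : 0 ≤ ∫ y, ‖F y‖ ^ p.toReal ∂ν := integral_nonneg fun y => by positivity
  rw [Lp.norm_def, MemLp.eLpNorm_eq_integral_rpow_norm hp0 hp (Lp.memLp F),
    ENNReal.toReal_ofReal (by positivity), ← Real.rpow_mul h0, inv_mul_cancel₀ hq.ne', Real.rpow_one]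

private theorem int_rax {Y : Type} [MeasurableSpace Y] (ν : Measure Y) (p : ℝ≥0∞) [Fact (1 ≤ p)] (hp : p ≠ ∞)
    (F : Lp ℂ p ν) : Integrable (fun y => ‖F y‖ ^ p.toReal) ν := by
  have h1 : (1 : ℝ≥0∞) ≤ p := Fact.out
  have hp0 : p ≠ 0 := by
    intro h
    rw [h] at h1
    exact absurd h1 (by norm_num)
  exact (Lp.memLp F).integrable_norm_rpow hp0 hp

private theorem dlint {Y : Type} [MeasurableSpace Y] (ν : Measure Y) (p : ℝ≥0∞) [Fact (1 ≤ p)] (hp : p ≠ ∞)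
    (F G : Lp ℂ p ν) : Integrable (fun y => dl p.toReal (F y) (G y)) ν ∧
      ∫ y, dl p.toReal (F y) (G y) ∂ν =
        2 * ‖F‖ ^ p.toReal + 2 * ‖G‖ ^ p.toReal - ‖F + G‖ ^ p.toReal - ‖F - G‖ ^ p.toReal := by
  have e : (fun y => dl p.toReal (F y) (G y)) =ᵐ[ν] fun y => 2 * ‖F y‖ ^ p.toReal + 2 * ‖G y‖ ^ p.toReal -
      ‖(F + G) y‖ ^ p.toReal - ‖(F - G) y‖ ^ p.toReal := by
    filter_upwards [Lp.coeFn_add F G, Lp.coeFn_sub F G] with y h1 h2
    rw [h1, h2]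
    rfl
  have iF := (int_rax ν p hp F).const_mul 2
  have iG := (int_rax ν p hp G).const_mul 2
  have iA := int_rax ν p hp (F + G)
  have iS := int_rax ν p hp (F - G)
  refine ⟨(((iF.add iG).sub iA).sub iS).congr e.symm, ?_⟩
  have e1 := integral_sub ((iF.add iG).sub iA) iS
  have e2 := integral_sub (iF.add iG) iA
  have e3 := integral_add iF iG
  simp only [Pi.add_apply, Pi.sub_apply] at e1 e2 e3
  rw [integral_congr_ae e, e1, e2, e3, integral_const_mul, integral_const_mul, nrm_rax ν p hp, nrm_rax ν p hp,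
    nrm_rax ν p hp, nrm_rax ν p hp]

private theorem main_rax {Y : Type} [MeasurableSpace Y] (ν : Measure Y) (p : ℝ≥0∞) [Fact (1 ≤ p)] (hp : p ≠ ∞)
    (hp2 : p ≠ 2) (T : Lp ℂ p ν → Lp ℂ p ν) (hadd : ∀ f g, T (f + g) = T f + T g)
    (hsub : ∀ f g, T (f - g) = T f - T g) (hn : ∀ f, ‖T f‖ = ‖f‖) (f g : Lp ℂ p ν)
    (hd : ∀ᵐ y ∂ν, f y = 0 ∨ g y = 0) : ∀ᵐ y ∂ν, T f y = 0 ∨ T g y = 0 := by
  have h1 : (1 : ℝ≥0∞) ≤ p := Fact.out
  have hp0 : p ≠ 0 := by
    intro h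
    rw [h] at h1
    exact absurd h1 (by norm_num)
  have hq : 0 < p.toReal := ENNReal.toReal_pos hp0 hp
  have hq2 : p.toReal ≠ 2 := by
    intro h
    apply hp2
    rw [← ENNReal.ofReal_toReal hp, h]
    norm_num
  have h0 : ∫ y, dl p.toReal (T f y) (T g y) ∂ν = 0 := by
    rw [(dlint ν p hp (T f) (T g)).2, ← hadd, ← hsub, hn, hn, hn, hn, ← (dlint ν p hp f g).2]
    rw [integral_congr_ae (g := fun _ => (0:ℝ))]
    · simp
    · filter_upwards [hd] with y hy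
      exact dl_zero _ hq _ _ hy
  have hi := (dlint ν p hp (T f) (T g)).1
  rcases lt_or_gt_of_ne hq2 with hlt | hgt
  · have hnn : 0 ≤ᵐ[ν] fun y => dl p.toReal (T f y) (T g y) := by
      refine Filter.Eventually.of_forall fun y => ?_
      by_cases ha : T f y = 0
      · exact (dl_zero _ hq _ _ (Or.inl ha)).ge
      by_cases hb : T g y = 0
      · exact (dl_zero _ hq _ _ (Or.inr hb)).ge
      exact (dl_pos _ hq hlt _ _ ha hb).le
    have h2 := (integral_eq_zero_iff_of_nonneg_ae hnn hi).1 h0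
    filter_upwards [h2] with y hy
    by_contra hc
    push Not at hc
    have := dl_pos _ hq hlt _ _ hc.1 hc.2
    exact absurd hy (by simpa using this.ne')
  · have hnn : 0 ≤ᵐ[ν] fun y => -dl p.toReal (T f y) (T g y) := by
      refine Filter.Eventually.of_forall fun y => ?_
      by_cases ha : T f y = 0
      · exact (neg_eq_zero.2 (dl_zero _ hq _ _ (Or.inl ha))).ge
      by_cases hb : T g y = 0
      · exact (neg_eq_zero.2 (dl_zero _ hq _ _ (Or.inr hb))).ge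
      exact (neg_pos.2 (dl_neg _ hgt _ _ ha hb)).le
    have h3 : ∫ y, -dl p.toReal (T f y) (T g y) ∂ν = 0 := by
      rw [integral_neg, h0, neg_zero]
    have h2 := (integral_eq_zero_iff_of_nonneg_ae hnn hi.neg).1 h3
    filter_upwards [h2] with y hy
    by_contra hc
    push Not at hc
    have := dl_neg _ hgt _ _ hc.1 hc.2
    have hy' : -dl p.toReal (T f y) (T g y) = 0 := hy
    linarith

theorem hRAX : StRax := by
  intro p _ hp hp2 M T hadd hsub hn f g hd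
  let _ := M.mY
  exact main_rax M.ν p hp hp2 T hadd hsub hn f g hd

end Pool.Agent.Helper62.XP
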